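import Mathlib

set_option autoImplicit false
set_option maxRecDepth 100000

namespace Pool.Agent.Results.MP_fb91b8_co.Cex

open Equiv

/-- The `n`-cycles: conjugates of the long cycle. -/
def Cyc (n : ℕ) := {γ : Perm (Fin n) // IsConj (finRotate n) γ}

/-- The graph on `n`-cycles: conjugation by a transposition of adjacent values. -/
def Gam (n : ℕ) : SimpleGraph (Cyc n) :=
  SimpleGraph.fromRel fun γ γ' => ∃ a b : Fin n, a.val + 1 = b.val ∧
    γ'.1 = swap a b * γ.1 * swap a b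

/-- The sorting time. -/
noncomputable def SortTime (n : ℕ) : ℕ∞ := ⨆ γ : Cyc n, (Gam n).edist ⟨finRotate n, IsConj.refl _⟩ γ

/-- Number of inversions of a word. -/
def inv : List ℕ → ℕ
  | [] => 0
  | x :: l => l.countP (· < x) + inv l

/-- Admissible words. -/
def adm (n : ℕ) (p : List ℕ) : Bool :=
  (List.range' 1 n).all fun k => 2 * (p.take k).sum ≤ k * (n + 1)

/-- Move the value `v`, preceded by `pre.reverse` and followed by `post`, to the left as long as
the word stays admissible and `v` does not pass a larger value. -/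
def mv (n v : ℕ) : List ℕ → List ℕ → List ℕ
  | [], post => v :: post
  | x :: pre, post =>
    if x < v ∧ adm n (pre.reverse ++ v :: x :: post) then mv n v pre (x :: post)
    else (x :: pre).reverse ++ v :: post

/-- The permutation `π₀` in one-line form. -/
def pi0 (n : ℕ) : List ℕ :=
  ((List.range (n / 2)).map (fun t => n - t)).foldl
    (fun p v => mv n v (p.takeWhile (· ≠ v)).reverse (p.dropWhile (· ≠ v)).tail)
    ((List.range' 1 (n - n / 2)).reverse ++ (List.range' (n - n / 2 + 1) (n / 2)).reverse)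

example : pi0 12 = [6, 5, 4, 3, 12, 2, 11, 1, 10, 9, 8, 7] := by decide +kernel

def I {n : ℕ} (f : Fin n → Fin n) : ℕ :=
  (Finset.univ.filter fun p : Fin n × Fin n => p.1 < p.2 ∧ f p.2 < f p.1).card

lemma I_swap {n : ℕ} (σ : Perm (Fin n)) (a b : Fin n) (h : a.val + 1 = b.val) :
    I (swap a b * σ : Perm (Fin n)) ≤ I σ + 1 := by
  have : (Finset.univ.filter fun p : Fin n × Fin n => p.1 < p.2 ∧
      (swap a b * σ : Perm (Fin n)) p.2 < (swap a b * σ : Perm (Fin n)) p.1) ⊆
      insert (σ.symm a, σ.symm b) (Finset.univ.filter fun p : Fin n × Fin n =>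
        p.1 < p.2 ∧ σ p.2 < σ p.1) := by
    rintro ⟨i, j⟩ hp
    simp only [Finset.mem_filter, Finset.mem_univ, true_and, Perm.mul_apply, Finset.mem_insert,
      Prod.mk.injEq, eq_symm_apply] at hp ⊢
    obtain ⟨h1, h2⟩ := hp
    simp only [h1, true_and]
    generalize σ i = x at *
    generalize σ j = y at *
    simp only [swap_apply_def, Fin.lt_def, Fin.ext_iff] at *
    split_ifs at h2 <;> omega
  exact (Finset.card_le_card this).trans (Finset.card_insert_le _ _)

lemma walk {n : ℕ} {γ δ : Cyc n} (w : (Gam n).Walk δ γ) (σ : Perm (Fin n))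
    (h : δ.1 = σ * finRotate n * σ⁻¹) :
    ∃ τ : Perm (Fin n), γ.1 = τ * finRotate n * τ⁻¹ ∧ I τ ≤ I σ + w.length := by
  induction w generalizing σ with
  | nil => exact ⟨σ, h, le_rfl⟩
  | @cons u v z huv w ih =>
    obtain ⟨a, b, hab, e⟩ : ∃ a b : Fin n, a.val + 1 = b.val ∧ v.1 = swap a b * u.1 * swap a b := by
      obtain ⟨-, h | ⟨a, b, hab, e⟩⟩ := (SimpleGraph.fromRel_adj _ _ _).1 huv
      · exact h
      · exact ⟨a, b, hab, by rw [e]; simp [← mul_assoc, mul_assoc _ (swap a b) (swap a b)]⟩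
    obtain ⟨τ, h1, h2⟩ := ih (swap a b * σ) (by rw [e, h]; simp [mul_assoc])
    have := I_swap σ a b hab
    exact ⟨τ, h1, by rw [SimpleGraph.Walk.length_cons]; omega⟩

def p : Perm (Fin 18) where
  toFun := ![4, 3, 16, 2, 15, 1, 14, 13, 0, 12, 11, 10, 9, 8, 7, 6, 5, 17]
  invFun := ![8, 5, 3, 1, 0, 16, 15, 14, 13, 12, 11, 10, 9, 7, 6, 4, 2, 17]
  left_inv := by decide
  right_inv := by decide

theorem result : ∃ n : ℕ, 1 ≤ n ∧ (inv (pi0 n) : ℕ∞) < SortTime n := by
  refine ⟨18, by norm_num, ?_⟩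
  have e : inv (pi0 18) = 82 := by decide +kernel
  rw [e]
  refine lt_of_lt_of_le (show ((82 : ℕ) : ℕ∞) < (83 : ℕ) by norm_num) (le_iSup_of_le
    ⟨p * finRotate 18 * p⁻¹, isConj_iff.mpr ⟨p, rfl⟩⟩ ?_)
  rw [SimpleGraph.edist_eq_sInf]
  refine le_sInf ?_
  rintro _ ⟨w, rfl⟩
  obtain ⟨τ, h1, h2⟩ := walk w 1 (by simp)
  have z : I (1 : Perm (Fin 18)) = 0 := by decide +kernel
  have c : ∀ x, (p⁻¹ * τ) (x + 1) = (p⁻¹ * τ) x + 1 := by
    intro x
    have : p⁻¹ * τ * finRotate 18 = finRotate 18 * (p⁻¹ * τ) := by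
      have h1' : p * finRotate 18 * p⁻¹ = τ * finRotate 18 * τ⁻¹ := h1
      calc p⁻¹ * τ * finRotate 18 = p⁻¹ * (τ * finRotate 18 * τ⁻¹) * τ := by group
        _ = _ := by rw [← h1']; group
    simpa using congrArg (fun f : Perm (Fin 18) => f x) this
  have c2 : ∀ x, (p⁻¹ * τ) x = (p⁻¹ * τ) 0 + x := by
    intro x
    induction x using Fin.induction with
    | zero => simp
    | succ i ih => rw [← Fin.coeSucc_eq_succ, c, ih, add_assoc]
  have c3 : (τ : Fin 18 → Fin 18) = fun x => p ((p⁻¹ * τ) 0 + x) := by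
    funext x; rw [← c2]; simp
  have k : ∀ a : Fin 18, 83 ≤ I (fun x => p (a + x)) := by decide +kernel
  have := k ((p⁻¹ * τ) 0)
  rw [← c3] at this
  exact Nat.cast_le.mpr (by omega : 83 ≤ w.length)

end Pool.Agent.Results.MP_fb91b8_co.Cex
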